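import Mathlib

namespace Pool.Agent.Results.MP_114a18_co.Connected

open SimpleGraph

/-- The graph of the edges of colour `i`. A colouring is a map on unordered pairs; the value on
`s(a, a)` is the colour of the vertex `a` and plays no part here. -/
def colG {N k : ℕ} (c : Sym2 (Fin N) → Fin k) (i : Fin k) : SimpleGraph (Fin N) where
  Adj a b := a ≠ b ∧ c s(a, b) = i
  symm := ⟨fun a b h => ⟨h.1.symm, by rw [Sym2.eq_swap]; exact h.2⟩⟩
  loopless := ⟨fun _ h => h.1 rfl⟩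

/-- The edge colouring has a rainbow triangle. -/
def Rainbow {N k : ℕ} (c : Sym2 (Fin N) → Fin k) : Prop :=
  ∃ a b d, a ≠ b ∧ a ≠ d ∧ b ≠ d ∧
    c s(a, b) ≠ c s(a, d) ∧ c s(a, b) ≠ c s(b, d) ∧ c s(a, d) ≠ c s(b, d)

/-- The edge colouring has a monochromatic homomorphic copy of `H`. -/
def Mono {W : Type} (H : SimpleGraph W) {N k : ℕ} (c : Sym2 (Fin N) → Fin k) : Prop :=
  ∃ i, Nonempty (H →g colG c i)

/-- Some edge has the colour of one of its ends. -/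
def Clash {N k : ℕ} (c : Sym2 (Fin N) → Fin k) : Prop :=
  ∃ a b, a ≠ b ∧ (c s(a, b) = c s(a, a) ∨ c s(a, b) = c s(b, b))

/-- `GR_k(ℋ)`. -/
noncomputable def GR {W : Type} (k : ℕ) (H : SimpleGraph W) : ℕ :=
  sInf {n | ∀ c : Sym2 (Fin n) → Fin k, ¬ Rainbow c → Mono H c}

/-- `GR*_k(H)`. -/
noncomputable def GRstar {W : Type} (k : ℕ) (H : SimpleGraph W) : ℕ :=
  sInf {n | ∀ c : Sym2 (Fin n) → Fin k, (Rainbow c ∨ Mono H c) ∨ Clash c}

theorem reach_ind {V : Type} {G : SimpleGraph V} {P : V → Prop} {u : V} (h0 : P u)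
    (hs : ∀ x y, G.Reachable u x → P x → G.Adj x y → P y) {x : V} (h : G.Reachable u x) : P x := by
  rw [reachable_iff_reflTransGen] at h
  induction h with
  | refl => exact h0
  | tail h1 h2 ih => exact hs _ _ ((reachable_iff_reflTransGen _ _).mpr h1) ih h2

theorem swap_step {W : Type} {H : SimpleGraph W} (hH : H.Connected) {N k : ℕ}
    (c : Sym2 (Fin N) → Fin k) (z : Fin k) (h1 : ¬ Rainbow c) (h2 : ¬ Mono H c) (h3 : ¬ Clash c)
    {u v : Fin N} (huv : (colG c z).Adj u v) :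
    ∃ c' : Sym2 (Fin N) → Fin k, ¬ Rainbow c' ∧ ¬ Mono H c' ∧ ¬ Clash c' ∧
      {p : Fin N × Fin N | (colG c' z).Reachable p.1 p.2} ⊂
        {p : Fin N × Fin N | (colG c z).Reachable p.1 p.2} := by
  classical
  let C : Fin N → Prop := fun x => (colG c z).Reachable u x
  have hu : C u := Reachable.refl _
  have hcl : ∀ a b, a ≠ b → c s(a, b) ≠ c s(a, a) := fun a b hab h => h3 ⟨a, b, hab, Or.inl h⟩
  have hne : ∀ {x y}, ¬ C x → C y → y ≠ x := fun hx hy h => hx (h ▸ hy)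
  have hz : ∀ x y, ¬ C x → C y → c s(y, x) ≠ z := fun x y hx hy h =>
    hx (Reachable.trans hy (Adj.reachable ⟨hne hx hy, h⟩))
  have hmod : ∀ x y, ¬ C x → C y → c s(y, x) = c s(u, x) := by
    intro x y hx hy
    refine reach_ind (P := fun y => c s(y, x) = c s(u, x)) rfl (fun a b ha ih hab => ?_) hy
    have hb : C b := Reachable.trans ha hab.reachable
    rw [← ih]
    by_contra hc
    exact h1 ⟨a, b, x, hab.1, hne hx ha, hne hx hb, hab.2 ▸ (hz x a hx ha).symm,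
      hab.2 ▸ (hz x b hx hb).symm, Ne.symm hc⟩
  let j := c s(u, u)
  have hj : ∀ x y, ¬ C x → C y → c s(y, x) ≠ j := fun x y hx hy => by
    rw [hmod x y hx hy]; exact hcl u x (hne hx hu)
  let σ := Equiv.swap j z
  let c' : Sym2 (Fin N) → Fin k := fun e => if ∀ x ∈ e, C x then σ (c e) else c e
  have e1 : ∀ a b, C a → C b → c' s(a, b) = σ (c s(a, b)) := fun a b ha hb =>
    if_pos (by simp [ha, hb])
  have e2 : ∀ a b, ¬ C a → c' s(a, b) = c s(a, b) := fun a b ha =>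
    if_neg fun h => ha (h a (Sym2.mem_mk_left _ _))
  have e3 : ∀ a b, ¬ C b → c' s(a, b) = c s(a, b) := fun a b hb =>
    if_neg fun h => hb (h b (Sym2.mem_mk_right _ _))
  have e4 : ∀ a b, C a → ¬ C b → σ (c s(a, b)) = c s(a, b) := fun a b ha hb =>
    Equiv.swap_apply_of_ne_of_ne (hj b a hb ha) (hz b a hb ha)
  have e5 : ∀ a b, C a → c' s(a, b) = σ (c s(a, b)) := fun a b ha => by
    by_cases hb : C b
    · exact e1 a b ha hb
    · rw [e3 a b hb, e4 a b ha hb]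
  have e6 : ∀ a b, C b → c' s(a, b) = σ (c s(a, b)) := fun a b hb => by
    rw [Sym2.eq_swap]; exact e5 b a hb
  refine ⟨c', ?_, ?_, ?_, ?_, ?_⟩
  · rintro ⟨a, b, d, n1, n2, n3, r1, r2, r3⟩
    by_cases ha : C a <;> by_cases hb : C b <;> by_cases hd : C d
    · rw [e5 a b ha, e5 a d ha] at r1
      rw [e5 a b ha, e5 b d hb] at r2
      rw [e5 a d ha, e5 b d hb] at r3
      exact h1 ⟨a, b, d, n1, n2, n3, σ.injective.ne_iff.mp r1, σ.injective.ne_iff.mp r2,
        σ.injective.ne_iff.mp r3⟩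
    · exact r3 (by rw [e3 a d hd, e3 b d hd, hmod d a hd ha, hmod d b hd hb])
    · exact r2 (by rw [e3 a b hb, e2 b d hb, hmod b a hb ha, Sym2.eq_swap (a := b), hmod b d hb hd])
    · exact h1 ⟨a, b, d, n1, n2, n3, by rwa [e3 a b hb, e3 a d hd] at r1,
        by rwa [e3 a b hb, e3 b d hd] at r2, by rwa [e3 a d hd, e3 b d hd] at r3⟩
    · exact r1 (by rw [e2 a b ha, e2 a d ha, Sym2.eq_swap (a := a), hmod a b ha hb,
        Sym2.eq_swap (a := a), hmod a d ha hd])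
    · exact h1 ⟨a, b, d, n1, n2, n3, by rwa [e2 a b ha, e3 a d hd] at r1,
        by rwa [e2 a b ha, e3 b d hd] at r2, by rwa [e3 a d hd, e3 b d hd] at r3⟩
    · exact h1 ⟨a, b, d, n1, n2, n3, by rwa [e2 a b ha, e2 a d ha] at r1,
        by rwa [e2 a b ha, e2 b d hb] at r2, by rwa [e2 a d ha, e2 b d hb] at r3⟩
    · exact h1 ⟨a, b, d, n1, n2, n3, by rwa [e2 a b ha, e2 a d ha] at r1,
        by rwa [e2 a b ha, e2 b d hb] at r2, by rwa [e2 a d ha, e2 b d hb] at r3⟩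
  · rintro ⟨i, ⟨φ⟩⟩
    by_cases hi : σ i = i
    · refine h2 ⟨i, ⟨⟨φ, fun {a b} hab => ?_⟩⟩⟩
      obtain ⟨p1, p2⟩ := φ.map_rel hab
      refine ⟨p1, ?_⟩
      by_cases ha : C (φ a)
      · rw [e5 _ _ ha] at p2; exact σ.injective (p2.trans hi.symm)
      · rwa [e2 _ _ ha] at p2
    · obtain ⟨w⟩ := hH.nonempty
      have hst : ∀ a b, H.Adj a b → C (φ a) → C (φ b) := fun a b hab ha => by
        by_contra hb
        obtain ⟨-, p2⟩ := φ.map_rel hab
        rw [e3 _ _ hb] at p2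
        exact hi (p2 ▸ e4 _ _ ha hb)
      by_cases hw : C (φ w)
      · have hall : ∀ a, C (φ a) := fun a => reach_ind (P := fun a => C (φ a)) hw
          (fun x y _ ih h => hst x y h ih) (hH.preconnected w a)
        refine h2 ⟨σ.symm i, ⟨⟨φ, fun {a b} hab => ?_⟩⟩⟩
        obtain ⟨p1, p2⟩ := φ.map_rel hab
        rw [e5 _ _ (hall a)] at p2
        exact ⟨p1, σ.injective (by simpa using p2)⟩
      · have hall : ∀ a, ¬ C (φ a) := fun a => reach_ind (P := fun a => ¬ C (φ a)) hw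
          (fun x y _ ih h h' => ih (hst y x h.symm h')) (hH.preconnected w a)
        refine h2 ⟨i, ⟨⟨φ, fun {a b} hab => ?_⟩⟩⟩
        obtain ⟨p1, p2⟩ := φ.map_rel hab
        exact ⟨p1, by rwa [e2 _ _ (hall a)] at p2⟩
  · have key : ∀ a b, a ≠ b → c' s(a, b) ≠ c' s(a, a) := fun a b hab h => by
      by_cases ha : C a
      · rw [e5 _ _ ha, e5 _ _ ha] at h; exact hcl a b hab (σ.injective h)
      · rw [e2 _ _ ha, e2 _ _ ha] at h; exact hcl a b hab h
    rintro ⟨a, b, hab, h | h⟩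
    · exact key a b hab h
    · exact key b a hab.symm (by rwa [Sym2.eq_swap])
  · rintro ⟨a, b⟩ h
    refine reach_ind (P := fun b => (colG c z).Reachable a b) (Reachable.refl _)
      (fun x y _ ih hxy => ih.trans ?_) h
    by_cases hx : C x
    · by_cases hy : C y
      · exact (Reachable.symm hx).trans hy
      · exact Adj.reachable ⟨hxy.1, by rw [← e3 _ _ hy]; exact hxy.2⟩
    · exact Adj.reachable ⟨hxy.1, by rw [← e2 _ _ hx]; exact hxy.2⟩
  · intro h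
    have h4 : (colG c' z).Reachable u v := @h (u, v) huv.reachable
    refine huv.1 (reach_ind (P := fun b => u = b) rfl ?_ h4)
    rintro x y - rfl ⟨p1, p2⟩
    rw [e5 _ _ hu, Equiv.swap_apply_eq_iff, Equiv.swap_apply_right] at p2
    exact absurd p2 (hcl _ _ p1)

theorem kill {W : Type} {H : SimpleGraph W} (hH : H.Connected) {N k : ℕ} (z : Fin k) (m : ℕ) :
    ∀ c : Sym2 (Fin N) → Fin k, {p : Fin N × Fin N | (colG c z).Reachable p.1 p.2}.ncard = m →
      ¬ Rainbow c → ¬ Mono H c → ¬ Clash c →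
      ∃ c' : Sym2 (Fin N) → Fin k, ¬ Rainbow c' ∧ ¬ Mono H c' ∧ ∀ a b, a ≠ b → c' s(a, b) ≠ z := by
  induction m using Nat.strong_induction_on with
  | _ m ih =>
    intro c hm h1 h2 h3
    by_cases h : ∃ u v, (colG c z).Adj u v
    · obtain ⟨u, v, huv⟩ := h
      obtain ⟨c', a1, a2, a3, a4⟩ := swap_step hH c z h1 h2 h3 huv
      exact ih _ (hm ▸ Set.ncard_lt_ncard a4 (Set.toFinite _)) c' rfl a1 a2 a3
    · exact ⟨c, h1, h2, fun a b hab h' => h ⟨a, b, hab, h'⟩⟩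

theorem iff_conn {W : Type} {H : SimpleGraph W} (hH : H.Connected) (k N : ℕ) :
    (∀ c : Sym2 (Fin N) → Fin (k + 2), (Rainbow c ∨ Mono H c) ∨ Clash c) ↔
      ∀ c : Sym2 (Fin N) → Fin (k + 1), ¬ Rainbow c → Mono H c := by
  classical
  constructor
  · intro h c hc
    let c' : Sym2 (Fin N) → Fin (k + 2) := fun e => if e.IsDiag then Fin.last _ else (c e).castSucc
    have e1 : ∀ a b, a ≠ b → c' s(a, b) = (c s(a, b)).castSucc := fun a b hab =>
      if_neg (by simpa using hab)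
    have e2 : ∀ a, c' s(a, a) = Fin.last _ := fun a => if_pos (by simp)
    rcases h c' with (⟨a, b, d, n1, n2, n3, r1, r2, r3⟩ | ⟨i, ⟨φ⟩⟩) | ⟨a, b, hab, h | h⟩
    · rw [e1 _ _ n1, e1 _ _ n2] at r1
      rw [e1 _ _ n1, e1 _ _ n3] at r2
      rw [e1 _ _ n2, e1 _ _ n3] at r3
      exact absurd ⟨a, b, d, n1, n2, n3, fun h => r1 (congrArg _ h), fun h => r2 (congrArg _ h),
        fun h => r3 (congrArg _ h)⟩ hc
    · refine ⟨if h : i = Fin.last _ then 0 else i.castPred h, ⟨⟨φ, fun {a b} hab => ?_⟩⟩⟩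
      obtain ⟨p1, p2⟩ := φ.map_rel hab
      rw [e1 _ _ p1] at p2
      have hl : i ≠ Fin.last _ := fun h => Fin.castSucc_ne_last _ (p2.trans h)
      exact ⟨p1, by rw [dif_neg hl]; exact Fin.castSucc_injective _ (by simpa using p2)⟩
    · rw [e1 _ _ hab, e2] at h; exact absurd h (Fin.castSucc_ne_last _)
    · rw [e1 _ _ hab, e2] at h; exact absurd h (Fin.castSucc_ne_last _)
  · intro h c
    by_contra hc
    simp only [not_or] at hc
    obtain ⟨c', a1, a2, a3⟩ := kill hH (Fin.last _) _ c rfl hc.1.1 hc.1.2 hc.2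
    let c'' : Sym2 (Fin N) → Fin (k + 1) := fun e =>
      if h : c' e = Fin.last _ then 0 else (c' e).castPred h
    have e1 : ∀ a b, a ≠ b → c' s(a, b) = (c'' s(a, b)).castSucc := fun a b hab => by
      simp only [c'', dif_neg (a3 a b hab), Fin.castSucc_castPred]
    obtain ⟨i, ⟨φ⟩⟩ := h c'' (by
      rintro ⟨a, b, d, n1, n2, n3, r1, r2, r3⟩
      refine a1 ⟨a, b, d, n1, n2, n3, ?_, ?_, ?_⟩
      · rw [e1 _ _ n1, e1 _ _ n2]; exact (Fin.castSucc_injective _).ne r1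
      · rw [e1 _ _ n1, e1 _ _ n3]; exact (Fin.castSucc_injective _).ne r2
      · rw [e1 _ _ n2, e1 _ _ n3]; exact (Fin.castSucc_injective _).ne r3)
    refine a2 ⟨i.castSucc, ⟨⟨φ, fun {a b} hab => ?_⟩⟩⟩
    obtain ⟨p1, p2⟩ := φ.map_rel hab
    exact ⟨p1, by rw [e1 _ _ p1, p2]⟩

theorem result (k : ℕ) (hk : 2 ≤ k) {m m₀ : ℕ} (H : SimpleGraph (Fin m))
    (H₀ : SimpleGraph (Fin m₀)) (hH₀ : H₀.Connected) (f : H →g H₀) (g : H₀ →g H) :
    GRstar k H = GR (k - 1) H := by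
  obtain ⟨k, rfl⟩ : ∃ j, k = j + 2 := ⟨k - 2, by omega⟩
  have e : ∀ {N k : ℕ} (c : Sym2 (Fin N) → Fin k), Mono H c ↔ Mono H₀ c := fun c =>
    ⟨fun ⟨i, ⟨φ⟩⟩ => ⟨i, ⟨φ.comp g⟩⟩, fun ⟨i, ⟨φ⟩⟩ => ⟨i, ⟨φ.comp f⟩⟩⟩
  unfold GRstar GR
  congr 1
  ext N
  simp only [Set.mem_ofPred_eq, e]
  exact iff_conn hH₀ k N

end Pool.Agent.Results.MP_114a18_co.Connected
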